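import Mathlib

namespace Pool.Agent.R904.PL

open scoped TensorProduct

/-- Finitely many elements of an abelian group in terms of independent elements. -/
theorem fin_basis {A : Type*} [AddCommGroup A] (S : Finset A) :
    ∃ (r : ℕ) (e : Fin r → A) (ν : Fin r → (A →+ ℚ)) (N : ℕ) (c : A → Fin r → ℤ), 0 < N ∧
      ∀ a ∈ S, N • a = ∑ j, c a j • e j ∧ ∀ j, (c a j : ℚ) = N * ν j a := by
  classical
  let V := ℚ ⊗[ℤ] A
  let f : A →ₗ[ℤ] V := TensorProduct.mk ℤ ℚ A 1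
  haveI : IsLocalizedModule (nonZeroDivisors ℤ) f :=
    (isLocalizedModule_iff_isBaseChange (nonZeroDivisors ℤ) ℚ f).2 (TensorProduct.isBaseChange ℤ A ℚ)
  let W : Submodule ℚ V := Submodule.span ℚ (f '' (S : Set A))
  haveI : FiniteDimensional ℚ W := FiniteDimensional.span_of_finite ℚ (S.finite_toSet.image f)
  let b := Module.finBasis ℚ W
  have hext : ∀ j, ∃ g : V →ₗ[ℚ] ℚ, g.comp W.subtype = b.coord j := fun j =>
    LinearMap.exists_extend _
  choose g hg using hext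
  have hsc : ∀ v : V, ∃ (N : ℕ) (a : A), 0 < N ∧ (N : ℚ) • v = f a := by
    intro v
    obtain ⟨⟨a, s⟩, h⟩ := IsLocalizedModule.surj (nonZeroDivisors ℤ) f v
    have hs : (s : ℤ) ≠ 0 := nonZeroDivisors.ne_zero s.2
    refine ⟨(s : ℤ).natAbs, (s : ℤ).sign • a, Int.natAbs_pos.2 hs, ?_⟩
    rw [map_zsmul, ← h]
    change _ = (s : ℤ).sign • ((s : ℤ) • v)
    rw [smul_smul, Int.sign_mul_self, ← Int.cast_smul_eq_zsmul ℚ]
    congr 1
  have hz : ∀ a : A, f a = 0 → ∃ N : ℕ, 0 < N ∧ N • a = 0 := by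
    intro a h
    obtain ⟨s, hs⟩ := (IsLocalizedModule.eq_zero_iff (nonZeroDivisors ℤ) f).1 h
    have hs' : (s : ℤ) ≠ 0 := nonZeroDivisors.ne_zero s.2
    refine ⟨(s : ℤ).natAbs, Int.natAbs_pos.2 hs', ?_⟩
    have h1 : (s : ℤ) • a = 0 := hs
    rw [← natCast_zsmul, Int.natCast_natAbs]
    rcases abs_choice (s : ℤ) with h2 | h2
    · rw [h2, h1]
    · rw [h2, neg_smul, h1, neg_zero]
  choose M e hM he using fun j => hsc (b j : V)
  let ν : Fin (Module.finrank ℚ W) → (A →+ ℚ) := fun j =>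
    (((M j : ℚ)⁻¹ • g j).toAddMonoidHom).comp f.toAddMonoidHom
  have hν : ∀ a ∈ S, f a = ∑ j, ν j a • f (e j) := by
    intro a ha
    have haW : f a ∈ W := Submodule.subset_span ⟨a, ha, rfl⟩
    have h1 := b.sum_repr ⟨f a, haW⟩
    have h2 := congrArg (W.subtype) h1
    rw [map_sum] at h2
    rw [show f a = W.subtype ⟨f a, haW⟩ from rfl, ← h2]
    refine Finset.sum_congr rfl fun j _ => ?_
    have h3 : g j (f a) = b.repr ⟨f a, haW⟩ j := by
      have := congrArg (fun φ => φ ⟨f a, haW⟩) (hg j)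
      simpa using this
    have hMj : (M j : ℚ) ≠ 0 := by
      have := hM j
      positivity
    change W.subtype (b.repr ⟨f a, haW⟩ j • b j) = ((M j : ℚ)⁻¹ • g j (f a)) • f (e j)
    rw [map_smul, h3, ← he j, smul_smul, smul_eq_mul]
    congr 1
    field_simp
  -- denominators
  let D : ℕ := ∏ a ∈ S, ∏ j, (ν j a).den
  have hD : 0 < D := Finset.prod_pos fun a _ => Finset.prod_pos fun j _ => (ν j a).den_pos
  have hDν : ∀ a ∈ S, ∀ j, ∃ z : ℤ, (z : ℚ) = D * ν j a := by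
    intro a ha j
    have h1 : (ν j a).den ∣ D := (Finset.dvd_prod_of_mem (fun j => (ν j a).den)
      (Finset.mem_univ j)).trans (Finset.dvd_prod_of_mem (fun a => ∏ j, (ν j a).den) ha)
    obtain ⟨k, hk⟩ := h1
    refine ⟨k * (ν j a).num, ?_⟩
    rw [hk]
    push_cast
    have := Rat.den_mul_eq_num (ν j a)
    rw [mul_comm ((ν j a).den : ℚ) (k : ℚ), mul_assoc, this]
  choose! c₀ hc₀ using hDν
  have htor : ∀ a ∈ S, ∃ N : ℕ, 0 < N ∧ N • (D • a - ∑ j, c₀ a j • e j) = 0 := by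
    intro a ha
    apply hz
    rw [map_sub, map_nsmul, map_sum, sub_eq_zero]
    rw [hν a ha, Finset.smul_sum]
    refine Finset.sum_congr rfl fun j _ => ?_
    rw [map_zsmul, ← Int.cast_smul_eq_zsmul ℚ, hc₀ a ha j, ← Nat.cast_smul_eq_nsmul ℚ, smul_smul]
  choose! N₁ hN₁ hN₁' using htor
  let N₂ : ℕ := ∏ a ∈ S, N₁ a
  have hN₂ : 0 < N₂ := Finset.prod_pos fun a ha => hN₁ a ha
  refine ⟨_, e, ν, N₂ * D, fun a j => N₂ * c₀ a j, Nat.mul_pos hN₂ hD, ?_⟩
  intro a ha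
  constructor
  · obtain ⟨k, hk⟩ := Finset.dvd_prod_of_mem N₁ ha
    have h1 : N₂ • (D • a - ∑ j, c₀ a j • e j) = 0 := by
      rw [show N₂ = N₁ a * k from hk, mul_comm, mul_smul, hN₁' a ha, smul_zero]
    rw [smul_sub, sub_eq_zero] at h1
    rw [mul_smul, h1, Finset.smul_sum]
    refine Finset.sum_congr rfl fun j _ => ?_
    rw [mul_smul, natCast_zsmul]
  · intro j
    push_cast
    rw [hc₀ a ha j]
    ring

end Pool.Agent.R904.PL
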