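import Pool.Agent.R904.PL.Rat
import Pool.Agent.R904.PL.FinB

namespace Pool.Agent.R904.PL

open scoped TensorProduct
open Polynomial nonZeroDivisors

universe u

variable {F : Type u} [Field F]

/-- `un f` for a point. -/
noncomputable def uf : P1 F → UG F
  | none => 0
  | some f => un f

/-- `un (1 - f)` for a point. -/
noncomputable def ug : P1 F → UG F
  | none => 0
  | some f => un (1 - f)

theorem val_eq (n : ℕ) (l m : UG F →+ ℚ) (α : Z1 F) : val n l m α =
    ∑ x ∈ α.support, (α x : ℚ) * (l (uf x) ^ (n - 2) * (l (ug x) * m (uf x) - m (ug x) * l (uf x))) := by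
  rw [val, Finsupp.linearCombination_apply, Finsupp.sum]
  refine Finset.sum_congr rfl fun x _ => ?_
  rw [← Int.cast_smul_eq_zsmul ℚ, smul_eq_mul]
  congr 1
  rcases x with _ | x
  · simp [uf, ug, pairP]
  · rfl

theorem del2_eq (α : Z1 F) : del2 F α = ∑ x ∈ α.support, α x • wedge (ug x) (uf x) := by
  rw [del2, Finsupp.linearCombination_apply, Finsupp.sum]
  refine Finset.sum_congr rfl fun x _ => ?_
  congr 1
  rcases x with _ | x
  · simp [uf, ug, v2, wedge_zero_right]
  · rfl

theorem delR_eq (R : Submodule ℤ (Z1 F)) (α : Z1 F) : delR R α =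
    ∑ x ∈ α.support, α x • tens R (pt x) (uf x) := by
  rw [delR, Finsupp.linearCombination_apply, Finsupp.sum]
  refine Finset.sum_congr rfl fun x _ => ?_
  congr 1
  rcases x with _ | x
  · have := tens_nsmul R (pt none) 0 0
    simpa [uf, vR] using this.symm
  · rfl

theorem deriv_zero {X : Type*} (S : Finset X) (w lf lg mf mg nf ng : X → ℚ) (k : ℕ)
    (h : ∀ s : ℚ, ∑ x ∈ S, w x * ((lf x + s * nf x) ^ (k + 1) *
      ((lg x + s * ng x) * mf x - mg x * (lf x + s * nf x))) = 0) :
    ∑ x ∈ S, w x * ((k + 1 : ℚ) * lf x ^ k * nf x * (lg x * mf x - mg x * lf x) +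
      lf x ^ (k + 1) * (ng x * mf x - mg x * nf x)) = 0 := by
  let q : ℚ[X] := ∑ x ∈ S, C (w x) * ((C (lf x) + Polynomial.X * C (nf x)) ^ (k + 1) *
      ((C (lg x) + Polynomial.X * C (ng x)) * C (mf x) -
        C (mg x) * (C (lf x) + Polynomial.X * C (nf x))))
  have hq : q = 0 := by
    apply Polynomial.funext
    intro s
    rw [Polynomial.eval_zero, ← h s]
    simp only [q, Polynomial.eval_finsetSum, Polynomial.eval_mul, Polynomial.eval_pow,
      Polynomial.eval_add, Polynomial.eval_sub, Polynomial.eval_C, Polynomial.eval_X]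
  have h1 : (Polynomial.derivative q).eval 0 = 0 := by rw [hq]; simp
  rw [← h1]
  simp only [q, Polynomial.derivative_sum, Polynomial.eval_finsetSum]
  refine Finset.sum_congr rfl fun x _ => ?_
  simp only [Polynomial.derivative_mul, Polynomial.derivative_C, zero_mul, zero_add,
    Polynomial.derivative_pow, Polynomial.derivative_add, Polynomial.derivative_sub,
    Polynomial.derivative_X, Polynomial.eval_mul, Polynomial.eval_add, Polynomial.eval_sub,
    Polynomial.eval_pow, Polynomial.eval_C, Polynomial.eval_X, Polynomial.eval_zero,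
    Polynomial.eval_one, mul_zero, add_zero, one_mul, Polynomial.eval_natCast]
  push_cast
  simp only [Nat.add_sub_cancel, zero_mul, add_zero]

/-- Separation of variables in the symbol. -/
theorem separate {X : Type*} (S : Finset X) (w lf lg mf mg nf ng : X → ℚ) (k : ℕ)
    (h : ∀ s : ℚ, ∑ x ∈ S, w x * ((lf x + s * nf x) ^ (k + 1) *
      ((lg x + s * ng x) * mf x - mg x * (lf x + s * nf x))) = 0)
    (h' : ∀ s : ℚ, ∑ x ∈ S, w x * ((lf x + s * mf x) ^ (k + 1) *
      ((lg x + s * mg x) * nf x - ng x * (lf x + s * mf x))) = 0) :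
    ∑ x ∈ S, w x * (nf x * (lf x ^ k * (lg x * mf x - mg x * lf x))) = 0 := by
  have h1 := deriv_zero S w lf lg mf mg nf ng k h
  have h2 := deriv_zero S w lf lg nf ng mf mg k h'
  have e1 : ∑ x ∈ S, w x * ((k + 1 : ℚ) * lf x ^ k * nf x * (lg x * mf x - mg x * lf x) +
      lf x ^ (k + 1) * (ng x * mf x - mg x * nf x)) =
      (k + 1 : ℚ) * ∑ x ∈ S, w x * (nf x * (lf x ^ k * (lg x * mf x - mg x * lf x))) +
      ∑ x ∈ S, w x * (lf x ^ (k + 1) * (ng x * mf x - mg x * nf x)) := by
    rw [Finset.mul_sum, ← Finset.sum_add_distrib]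
    exact Finset.sum_congr rfl fun x _ => by ring
  have e2 : ∑ x ∈ S, w x * ((k + 1 : ℚ) * lf x ^ k * mf x * (lg x * nf x - ng x * lf x) +
      lf x ^ (k + 1) * (mg x * nf x - ng x * mf x)) =
      (k + 1 : ℚ) * (∑ x ∈ S, w x * (nf x * (lf x ^ k * (lg x * mf x - mg x * lf x))) -
      ∑ x ∈ S, w x * (lf x ^ (k + 1) * (ng x * mf x - mg x * nf x))) -
      ∑ x ∈ S, w x * (lf x ^ (k + 1) * (ng x * mf x - mg x * nf x)) := by
    rw [← Finset.sum_sub_distrib, Finset.mul_sum, ← Finset.sum_sub_distrib]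
    exact Finset.sum_congr rfl fun x _ => by ring
  rw [e1] at h1
  rw [e2] at h2
  set A := ∑ x ∈ S, w x * (nf x * (lf x ^ k * (lg x * mf x - mg x * lf x)))
  set Cc := ∑ x ∈ S, w x * (lf x ^ (k + 1) * (ng x * mf x - mg x * nf x))
  have h3 : ((k : ℚ) + 3) * Cc = 0 := by linarith
  have h4 : Cc = 0 := by
    rcases mul_eq_zero.1 h3 with h | h
    · have : (0 : ℚ) ≤ k := Nat.cast_nonneg k
      linarith
    · exact h
  rw [h4, add_zero] at h1
  rcases mul_eq_zero.1 h1 with h | h
  · have : (0 : ℚ) ≤ k := Nat.cast_nonneg k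
    linarith
  · exact h

/-- The twisted element `∑ c(f) n_f {f}`. -/
noncomputable def twist (c : P1 F → ℤ) (α : Z1 F) : Z1 F := ∑ x ∈ α.support, (α x * c x) • pt x

theorem val_twist (n : ℕ) (l m : UG F →+ ℚ) (c : P1 F → ℤ) (α : Z1 F) :
    val n l m (twist c α) = ∑ x ∈ α.support, (α x : ℚ) * (c x *
      (l (uf x) ^ (n - 2) * (l (ug x) * m (uf x) - m (ug x) * l (uf x)))) := by
  rw [twist, map_sum]
  refine Finset.sum_congr rfl fun x _ => ?_
  rw [map_zsmul, val, Finsupp.linearCombination_single, one_smul, ← Int.cast_smul_eq_zsmul ℚ,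
    smul_eq_mul]
  push_cast
  rw [mul_assoc]
  congr 2
  rcases x with _ | x
  · simp [uf, ug, pairP]
  · rfl

theorem wedge_swap (a b : UG F) : wedge a b + wedge b a = 0 :=
  ExteriorAlgebra.ι_add_mul_swap (R := ℤ) a b

theorem wedge_sum_sum {r : ℕ} (a b : Fin r → ℤ) (e : Fin r → UG F) :
    wedge (∑ i, a i • e i) (∑ j, b j • e j) = ∑ i, ∑ j, (a i * b j) • wedge (e i) (e j) := by
  change (ExteriorAlgebra.ι ℤ (∑ i, a i • e i) * ExteriorAlgebra.ι ℤ (∑ j, b j • e j) :
    ExteriorAlgebra ℤ (UG F)) = ∑ i, ∑ j, (a i * b j) •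
      (ExteriorAlgebra.ι ℤ (e i) * ExteriorAlgebra.ι ℤ (e j) : ExteriorAlgebra ℤ (UG F))
  rw [map_sum, map_sum, Finset.sum_mul_sum]
  refine Finset.sum_congr rfl fun i _ => Finset.sum_congr rfl fun j _ => ?_
  rw [map_zsmul, map_zsmul, smul_mul_assoc, mul_smul_comm, smul_smul]

/-- Base case: in `Λ²`. -/
theorem del2_torsion {α : Z1 F} (h : SymbolZero 2 F α) : ∃ m : ℕ, 0 < m ∧ m • del2 F α = 0 := by
  classical
  obtain ⟨r, e, ν, N, c, hN, hc⟩ := fin_basis (α.support.image uf ∪ α.support.image (ug (F := F)))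
  have hf : ∀ x ∈ α.support, N • uf x = ∑ j, c (uf x) j • e j := fun x hx =>
    (hc _ (Finset.mem_union_left _ (Finset.mem_image_of_mem _ hx))).1
  have hg : ∀ x ∈ α.support, N • ug x = ∑ j, c (ug x) j • e j := fun x hx =>
    (hc _ (Finset.mem_union_right _ (Finset.mem_image_of_mem _ hx))).1
  have hf' : ∀ x ∈ α.support, ∀ j, (c (uf x) j : ℚ) = N * ν j (uf x) := fun x hx =>
    (hc _ (Finset.mem_union_left _ (Finset.mem_image_of_mem _ hx))).2
  have hg' : ∀ x ∈ α.support, ∀ j, (c (ug x) j : ℚ) = N * ν j (ug x) := fun x hx =>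
    (hc _ (Finset.mem_union_right _ (Finset.mem_image_of_mem _ hx))).2
  let D : Fin r → Fin r → ℤ := fun i j => ∑ x ∈ α.support, α x * (c (ug x) i * c (uf x) j)
  have hD : ∀ i j, D i j = D j i := by
    intro i j
    have h1 := h (ν i) (ν j)
    rw [val_eq] at h1
    have h2 : ((D i j - D j i : ℤ) : ℚ) = 0 := by
      have : ((D i j - D j i : ℤ) : ℚ) = (N : ℚ) ^ 2 * ∑ x ∈ α.support, (α x : ℚ) *
          (ν i (uf x) ^ (2 - 2) * (ν i (ug x) * ν j (uf x) - ν j (ug x) * ν i (uf x))) := by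
        simp only [D]
        rw [← Finset.sum_sub_distrib, Finset.mul_sum]
        push_cast
        refine Finset.sum_congr rfl fun x hx => ?_
        rw [hf' x hx, hf' x hx, hg' x hx, hg' x hx]
        ring
      rw [this, h1, mul_zero]
    have h3 : D i j - D j i = 0 := by exact_mod_cast h2
    omega
  have key : (N * N) • del2 F α = ∑ i, ∑ j, D i j • wedge (e i) (e j) := by
    rw [del2_eq, Finset.smul_sum]
    have : ∀ x ∈ α.support, (N * N) • (α x • wedge (ug x) (uf x)) =
        ∑ i, ∑ j, (α x * (c (ug x) i * c (uf x) j)) • wedge (e i) (e j) := by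
      intro x hx
      rw [smul_comm, ← wedge_nsmul, hf x hx, hg x hx, wedge_sum_sum, Finset.smul_sum]
      refine Finset.sum_congr rfl fun i _ => ?_
      rw [Finset.smul_sum]
      refine Finset.sum_congr rfl fun j _ => ?_
      rw [smul_smul]
    rw [Finset.sum_congr rfl this, Finset.sum_comm]
    refine Finset.sum_congr rfl fun i _ => ?_
    rw [Finset.sum_comm]
    refine Finset.sum_congr rfl fun j _ => ?_
    rw [← Finset.sum_smul]
  refine ⟨2 * (N * N), by positivity, ?_⟩
  rw [mul_smul, key, two_smul]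
  have h1 : ∑ i, ∑ j, D i j • wedge (e i) (e j) = ∑ i, ∑ j, D i j • wedge (e j) (e i) := by
    rw [Finset.sum_comm]
    exact Finset.sum_congr rfl fun i _ => Finset.sum_congr rfl fun j _ => by rw [hD]
  nth_rewrite 2 [h1]
  rw [← Finset.sum_add_distrib]
  refine Finset.sum_eq_zero fun i _ => ?_
  rw [← Finset.sum_add_distrib]
  refine Finset.sum_eq_zero fun j _ => ?_
  rw [← smul_add, wedge_swap, smul_zero]

/-- Induction step: in `B_{n-1} ⊗ F^*`. -/
theorem delR_torsion {n : ℕ} {α : Z1 F} (h : SymbolZero (n + 3) F α)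
    (ih : ∀ β : Z1 F, SymbolZero (n + 2) F β → Torsion (n + 2) F β) :
    ∃ m : ℕ, 0 < m ∧ m • delR (Rel (n + 2) F) α = 0 := by
  classical
  obtain ⟨r, e, ν, N, c, hN, hc⟩ := fin_basis (α.support.image (uf (F := F)))
  have hf : ∀ x ∈ α.support, N • uf x = ∑ j, c (uf x) j • e j := fun x hx =>
    (hc _ (Finset.mem_image_of_mem _ hx)).1
  have hf' : ∀ x ∈ α.support, ∀ j, (c (uf x) j : ℚ) = N * ν j (uf x) := fun x hx =>
    (hc _ (Finset.mem_image_of_mem _ hx)).2
  have htw : ∀ j, Torsion (n + 2) F (twist (fun x => c (uf x) j) α) := by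
    intro j
    apply ih
    intro l m
    rw [val_twist]
    have h1 : ∀ (l' m' : UG F →+ ℚ) (s : ℚ), ∑ x ∈ α.support, (α x : ℚ) *
        ((l (uf x) + s * l' (uf x)) ^ (n + 1) * ((l (ug x) + s * l' (ug x)) * m' (uf x) -
          m' (ug x) * (l (uf x) + s * l' (uf x)))) = 0 := by
      intro l' m' s
      have := h (l + s • l') m'
      rw [val_eq] at this
      rw [← this]
      exact Finset.sum_congr rfl fun x _ => by
        simp only [AddMonoidHom.add_apply, AddMonoidHom.smul_apply, smul_eq_mul]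
        rfl
    have h2 := separate α.support (fun x => (α x : ℚ)) (fun x => l (uf x)) (fun x => l (ug x))
      (fun x => m (uf x)) (fun x => m (ug x)) (fun x => ν j (uf x)) (fun x => ν j (ug x)) n
      (h1 (ν j) m) (h1 m (ν j))
    have h3 : ∑ x ∈ α.support, (α x : ℚ) * ((c (uf x) j : ℚ) *
      (l (uf x) ^ (n + 2 - 2) * (l (ug x) * m (uf x) - m (ug x) * l (uf x)))) =
      (N : ℚ) * ∑ x ∈ α.support, (α x : ℚ) * (ν j (uf x) * (l (uf x) ^ n *
        (l (ug x) * m (uf x) - m (ug x) * l (uf x)))) := by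
      rw [Finset.mul_sum]
      refine Finset.sum_congr rfl fun x hx => ?_
      rw [hf' x hx, Nat.add_sub_cancel]
      ring
    rw [h3, h2, mul_zero]
  choose M hM hM' using htw
  refine ⟨(∏ j, M j) * N, Nat.mul_pos (Finset.prod_pos fun j _ => hM j) hN, ?_⟩
  have key : N • delR (Rel (n + 2) F) α =
      ∑ j, tens (Rel (n + 2) F) (twist (fun x => c (uf x) j) α) (e j) := by
    rw [delR_eq, Finset.smul_sum]
    have : ∀ x ∈ α.support, N • (α x • tens (Rel (n + 2) F) (pt x) (uf x)) =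
        ∑ j, tens (Rel (n + 2) F) ((α x * c (uf x) j) • pt x) (e j) := by
      intro x hx
      rw [smul_comm, ← tens_nsmul, hf x hx, tens_sum, Finset.smul_sum]
      refine Finset.sum_congr rfl fun j _ => ?_
      rw [tens_zsmul, smul_smul, tens_smul_left]
    rw [Finset.sum_congr rfl this, Finset.sum_comm]
    refine Finset.sum_congr rfl fun j _ => ?_
    rw [twist, tens_sum_left]
  rw [mul_smul, key, Finset.smul_sum]
  refine Finset.sum_eq_zero fun j _ => ?_
  obtain ⟨k, hk⟩ := Finset.dvd_prod_of_mem M (Finset.mem_univ j)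
  have h0 : tens (Rel (n + 2) F) ((M j : ℤ) • twist (fun x => c (uf x) j) α) (e j) = 0 := by
    have h1 := tens_congr (Rel (n + 2) F) (a := (M j : ℤ) • twist (fun x => c (uf x) j) α) (b := 0)
      (by rw [sub_zero, natCast_zsmul]; exact hM' j) (e j)
    rw [h1]
    have := tens_smul_left (Rel (n + 2) F) 0 (e j) 0
    rwa [zero_smul, zero_smul] at this
  rw [tens_smul_left, natCast_zsmul] at h0
  rw [hk, mul_comm, mul_smul, h0, smul_zero]

/-- The symbol criterion. -/
theorem symbol_criterion (p : ℕ) [hp : Fact p.Prime] (k F ι : Type u) [Field k] [CharP k p]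
    [Field F] [Algebra (MvPolynomial ι k) F] [IsFractionRing (MvPolynomial ι k) F]
    (hk : ∀ a : k, ∃ m : ℕ, 0 < m ∧ a ^ p ^ m = a) (n : ℕ) : ∀ α : Z1 F,
    SymbolZero (n + 2) F α → Torsion (n + 2) F α := by
  have hker : ∀ (n : ℕ), 2 ≤ n → ∀ α : Z1 F, DelTorsion n F α → Torsion n F α := by
    intro n hn α h
    obtain ⟨m, hm, h⟩ := h.exists
    exact Torsion.of_nsmul hm (kernel_torsion p k F ι hk hn h)
  induction n with
  | zero =>
    intro α h
    obtain ⟨m, hm, h⟩ := del2_torsion h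
    refine hker 2 le_rfl α ⟨m, hm, ?_⟩
    simp only [DelZero, Ker2]
    rw [map_nsmul, h]
  | succ n ih =>
    intro α h
    obtain ⟨m, hm, h⟩ := delR_torsion h ih
    refine hker (n + 3) (by omega) α ⟨m, hm, ?_⟩
    simp only [DelZero, KerR]
    rw [map_nsmul, h]

end Pool.Agent.R904.PL
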