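import Mathlib

/-!
# The groups `B_n(F)` of Goncharov

`P1 F` is the projective line over `F`, `Z1 F` the free abelian group on it, and
`Rel n F ⊂ Z1 F` is the subgroup `R_n(F)`: `B_n(F) = Z1 F / Rel n F`.
-/

namespace Pool.Agent.R904.PL

open scoped TensorProduct

universe u

/-- The projective line over `F`; `none` is the point at infinity. -/
abbrev P1 (F : Type u) : Type u := Option F

/-- The free abelian group on the projective line. -/
abbrev Z1 (F : Type u) : Type u := P1 F →₀ ℤ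

/-- The class of a point. -/
noncomputable abbrev pt {F : Type u} (x : P1 F) : Z1 F := Finsupp.single x 1

/-- The group `F^*`, written additively. -/
def UG (F : Type u) [Field F] : Type u := Additive Fˣ

instance instUG (F : Type u) [Field F] : AddCommGroup (UG F) :=
  (inferInstance : AddCommGroup (Additive Fˣ))

/-- A unit as an element of `UG F`. -/
def ofU {F : Type u} [Field F] (x : Fˣ) : UG F := (Additive.ofMul x : Additive Fˣ)

/-- The element of `F^*` with the given value, written additively (`0` if the value is `0`). -/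
noncomputable def un {F : Type u} [Field F] (x : F) : UG F :=
  open Classical in if h : x = 0 then 0 else ofU (Units.mk0 x h)

/-- Value of a rational function at a point `c` of `F`, in the projective line. -/
noncomputable def spec {F : Type u} [Field F] (c : F) : P1 (RatFunc F) → P1 F
  | none => none
  | some f =>
    open Classical in if f.denom.eval c = 0 then none else some (f.num.eval c / f.denom.eval c)

/-- Specialisation of elements of `Z1 F(t)` at `t = c`. -/
noncomputable def specZ {F : Type u} [Field F] (c : F) : Z1 (RatFunc F) →ₗ[ℤ] Z1 F :=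
  Finsupp.lmapDomain ℤ ℤ (spec c)

/-- `α(0) - α(1)`. -/
noncomputable def jump {F : Type u} [Field F] (α : Z1 (RatFunc F)) : Z1 F :=
  specZ 0 α - specZ 1 α

/-- The exterior algebra of `F^*` over `ℤ`. -/
def Lam (F : Type u) [Field F] : Type u := ExteriorAlgebra ℤ (UG F)

noncomputable instance instLam (F : Type u) [Field F] : Ring (Lam F) :=
  (inferInstance : Ring (ExteriorAlgebra ℤ (UG F)))

/-- The element `a` in degree 1. -/
noncomputable def emb {F : Type u} [Field F] (a : UG F) : Lam F := ExteriorAlgebra.ι ℤ a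

/-- `a ∧ b`. -/
noncomputable def wedge {F : Type u} [Field F] (a b : UG F) : Lam F := emb a * emb b

/-- `(1 - x) ∧ x`, and `0` for `x = 0, 1, ∞`. -/
noncomputable def v2 {F : Type u} [Field F] : P1 F → Lam F
  | none => 0
  | some a => wedge (un (1 - a)) (un a)

/-- `δ₂ : {x} ↦ (1 - x) ∧ x`, and `0` on `{0}, {1}, {∞}`. -/
noncomputable def del2 (F : Type u) [Field F] : Z1 F →ₗ[ℤ] Lam F :=
  Finsupp.linearCombination ℤ v2

/-- The group `(Z1 F / R) ⊗ F^*`. -/
def BT {F : Type u} [Field F] (R : Submodule ℤ (Z1 F)) : Type u := (Z1 F ⧸ R) ⊗[ℤ] UG F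

noncomputable instance instBT {F : Type u} [Field F] (R : Submodule ℤ (Z1 F)) :
    AddCommGroup (BT R) :=
  (inferInstance : AddCommGroup ((Z1 F ⧸ R) ⊗[ℤ] UG F))

/-- `a ⊗ u`. -/
noncomputable def tens {F : Type u} [Field F] (R : Submodule ℤ (Z1 F)) (a : Z1 F) (u : UG F) :
    BT R :=
  (R.mkQ a ⊗ₜ[ℤ] u : (Z1 F ⧸ R) ⊗[ℤ] UG F)

/-- `{x} ⊗ x`, and `0` for `x = 0, 1, ∞`. -/
noncomputable def vR {F : Type u} [Field F] (R : Submodule ℤ (Z1 F)) : P1 F → BT R
  | none => 0
  | some a => tens R (pt (some a)) (un a)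

/-- `{x} ↦ {x} ⊗ x ∈ (Z1 F / R) ⊗ F^*`, and `0` on `{0}, {1}, {∞}`. -/
noncomputable def delR {F : Type u} [Field F] (R : Submodule ℤ (Z1 F)) : Z1 F →ₗ[ℤ] BT R :=
  Finsupp.linearCombination ℤ (vR R)

/-- Spanned by `{0}`, `{∞}` and all `{x} + {y} - {x y}`. -/
noncomputable def Rel1 (F : Type u) [Field F] : Submodule ℤ (Z1 F) :=
  Submodule.span ℤ ({pt (some 0), pt none} ∪
    {a | ∃ x y : F, x ≠ 0 ∧ y ≠ 0 ∧ a = pt (some x) + pt (some y) - pt (some (x * y))})

/-- Spanned by `{0}`, `{∞}` and all `α(0) - α(1)`, where `α` has the property `K`. -/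
noncomputable def RelOf (F : Type u) [Field F] (K : Z1 (RatFunc F) → Prop) : Submodule ℤ (Z1 F) :=
  Submodule.span ℤ ({pt (some 0), pt none} ∪ {a | ∃ α : Z1 (RatFunc F), K α ∧ a = jump α})

/-- `δ₂ α = 0`. -/
def Ker2 (F : Type u) [Field F] (α : Z1 F) : Prop := del2 F α = 0

/-- `δ α = 0` in `(Z1 F / R) ⊗ F^*`. -/
def KerR {F : Type u} [Field F] (R : Submodule ℤ (Z1 F)) (α : Z1 F) : Prop := delR R α = 0

/-- The subgroup `R_n(F)`, `n ≥ 1`. -/
noncomputable def Rel : ℕ → (F : Type u) → [Field F] → Submodule ℤ (Z1 F)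
  | 0, _, _ => ⊤
  | 1, F, _ => Rel1 F
  | 2, F, _ => RelOf F (Ker2 (RatFunc F))
  | n + 3, F, _ => RelOf F (KerR (Rel (n + 2) (RatFunc F)))

/-- `δ_n α = 0`, for `n ≥ 2`. -/
def DelZero : ℕ → (F : Type u) → [Field F] → Z1 F → Prop
  | 0, _, _, _ => True
  | 1, _, _, _ => True
  | 2, F, _, α => Ker2 F α
  | n + 3, F, _, α => KerR (Rel (n + 2) F) α

/-- `δ_n α` is a torsion element, for `n ≥ 2`. -/
def DelTorsion (n : ℕ) (F : Type u) [Field F] (α : Z1 F) : Prop :=
  ∃ m : ℕ, 0 < m ∧ DelZero n F (m • α)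

/-- The class of `α` in `B_n(F)` is a torsion element. -/
def Torsion (n : ℕ) (F : Type u) [Field F] (α : Z1 F) : Prop :=
  ∃ m : ℕ, 0 < m ∧ m • α ∈ Rel n F

/-- The map of projective lines. -/
def mapP {F E : Type u} [Field F] [Field E] (j : F →+* E) : P1 F → P1 E := Option.map j

/-- The map on `Z1`. -/
noncomputable def mapZ {F E : Type u} [Field F] [Field E] (j : F →+* E) : Z1 F →ₗ[ℤ] Z1 E :=
  Finsupp.lmapDomain ℤ ℤ (mapP j)

/-- The number `l(f)^(n-2) (l(1-f) m(f) - m(1-f) l(f))`. -/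
noncomputable def pair {F : Type u} [Field F] (n : ℕ) (l m : UG F →+ ℚ) (f : F) : ℚ :=
  l (un f) ^ (n - 2) * (l (un (1 - f)) * m (un f) - m (un (1 - f)) * l (un f))

/-- The same for a point of the projective line. -/
noncomputable def pairP {F : Type u} [Field F] (n : ℕ) (l m : UG F →+ ℚ) : P1 F → ℚ
  | none => 0
  | some f => pair n l m f

/-- The value of a pair of homomorphisms `F^* → ℚ` on the symbol
`((1 - f) ∧ f) ⊗ f ⊗ ... ⊗ f` of `{f}`, extended linearly. -/
noncomputable def val {F : Type u} [Field F] (n : ℕ) (l m : UG F →+ ℚ) : Z1 F →ₗ[ℤ] ℚ :=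
  Finsupp.linearCombination ℤ (pairP n l m)

/-- All these values vanish. -/
def SymbolZero (n : ℕ) (F : Type u) [Field F] (α : Z1 F) : Prop :=
  ∀ l m : UG F →+ ℚ, val n l m α = 0

/-- The Frobenius endomorphism acts on `B_n(F)` as multiplication by `p ^ n`, for all fields `F` of
characteristic `p` and `n ≥ 1`. -/
def FrobeniusPart (p : ℕ) [Fact p.Prime] : Prop :=
  ∀ (n : ℕ) (F : Type u) [Field F] [CharP F p], 1 ≤ n → ∀ α : Z1 F,
    mapZ (frobenius F p) α - (p ^ n) • α ∈ Rel n F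

/-- Let `j : F → E` be a purely inseparable extension with `E ^ (p ^ m) ⊂ F`. The kernel and the
cokernel of `B_n(F) → B_n(E)` are killed by `p ^ (n m)`. -/
def InseparablePart (p : ℕ) [Fact p.Prime] : Prop :=
  ∀ (n m : ℕ) (F E : Type u) [Field F] [Field E] [CharP F p] (j : F →+* E), 1 ≤ n →
    (∀ y : E, ∃ x : F, j x = y ^ p ^ m) →
    (∀ α : Z1 F, mapZ j α ∈ Rel n E → p ^ (n * m) • α ∈ Rel n F) ∧
    (∀ β : Z1 E, ∃ α : Z1 F, p ^ (n * m) • β - mapZ j α ∈ Rel n E)

/-- If `F` is algebraic over `𝔽_p`, the groups `B_n(F)`, `n ≥ 1`, are torsion groups. -/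
def AlgebraicPart (p : ℕ) [Fact p.Prime] : Prop :=
  ∀ (n : ℕ) (F : Type u) [Field F] [Algebra (ZMod p) F] [Algebra.IsAlgebraic (ZMod p) F], 1 ≤ n →
    ∀ α : Z1 F, Torsion n F α

/-- Let `F` be purely transcendental (the field of fractions of a polynomial ring in the variables
`ι`, of any number) over a field `k` that is algebraic over `𝔽_p`, and `n ≥ 2`. The kernel of `δ_n` on
`B_n(F) ⊗ ℚ` is zero. -/
def KernelPart (p : ℕ) [Fact p.Prime] : Prop :=
  ∀ (n : ℕ) (k F ι : Type u) [Field k] [Algebra (ZMod p) k] [Algebra.IsAlgebraic (ZMod p) k]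
    [Field F] [Algebra (MvPolynomial ι k) F] [IsFractionRing (MvPolynomial ι k) F], 2 ≤ n →
    ∀ α : Z1 F, DelTorsion n F α → Torsion n F α

/-- For the same fields: an element of `B_n(F) ⊗ ℚ` is zero if its symbol is zero. -/
def SymbolPart (p : ℕ) [Fact p.Prime] : Prop :=
  ∀ (n : ℕ) (k F ι : Type u) [Field k] [Algebra (ZMod p) k] [Algebra.IsAlgebraic (ZMod p) k]
    [Field F] [Algebra (MvPolynomial ι k) F] [IsFractionRing (MvPolynomial ι k) F], 2 ≤ n →
    ∀ α : Z1 F, SymbolZero n F α → Torsion n F α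

end Pool.Agent.R904.PL
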