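import Pool.Agent.R904.PL.Fun

namespace Pool.Agent.R904.PL

open scoped TensorProduct
open Polynomial nonZeroDivisors

universe u

variable {F E : Type u} [Field F] [Field E]

theorem spec_poly (c : F) (q : F[X]) :
    spec c (some (algebraMap F[X] (RatFunc F) q)) = some (q.eval c) := by
  have := spec_div c q 1 one_ne_zero (Or.inl (by simp))
  rw [map_one, div_one] at this
  rw [this, if_neg (by simp)]
  simp

/-- `x t`. -/
noncomputable def line (x : F) : RatFunc F := algebraMap F[X] (RatFunc F) (Polynomial.C x * Polynomial.X)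

theorem spec_line_pow (c x : F) (k : ℕ) :
    spec c (some (line x ^ k)) = some ((x * c) ^ k) := by
  rw [line, ← map_pow, spec_poly]
  simp

theorem spec_line (c x : F) : spec c (some (line x)) = some (x * c) := by
  rw [line, spec_poly]
  simp

theorem ratFunc_charP (F : Type u) [Field F] (p : ℕ) [CharP F p] : CharP (RatFunc F) p :=
  charP_of_injective_algebraMap (algebraMap F (RatFunc F)).injective p

section

variable (p : ℕ) [hp : Fact p.Prime]

theorem frob_pt (n : ℕ) : 1 ≤ n → ∀ (F : Type u) [Field F] [CharP F p] (x : F),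
    pt (some (x ^ p)) - ((p : ℤ) ^ n) • pt (some x) ∈ Rel n F := by
  induction n using Nat.strong_induction_on with
  | _ n ih =>
    intro hn F _ _ x
    have hp0 : p ≠ 0 := hp.out.ne_zero
    rcases n with _ | _ | _ | n
    · omega
    · by_cases hx : x = 0
      · subst hx
        rw [zero_pow hp0]
        exact Submodule.sub_mem _ (pt_zero_mem 1) (Submodule.smul_mem _ _ (pt_zero_mem 1))
      · have key : ∀ k : ℕ, pt (some (x ^ k)) - (k : ℤ) • pt (some x) ∈ Rel 1 F := by
          intro k
          induction k with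
          | zero =>
            rw [pow_zero]
            have : pt (some (1 : F)) + pt (some 1) - pt (some (1 * 1)) ∈ Rel 1 F := by
              rw [Rel_one]
              exact Submodule.subset_span (Or.inr ⟨1, 1, one_ne_zero, one_ne_zero, rfl⟩)
            rw [mul_one, add_sub_cancel_right] at this
            simpa using this
          | succ k ihk =>
            have : pt (some (x ^ k)) + pt (some x) - pt (some (x ^ k * x)) ∈ Rel 1 F := by
              rw [Rel_one]
              exact Submodule.subset_span (Or.inr ⟨x ^ k, x, pow_ne_zero _ hx, hx, rfl⟩)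
            have e : pt (some (x ^ (k + 1))) - ((k + 1 : ℕ) : ℤ) • pt (some x) =
                (pt (some (x ^ k)) - (k : ℤ) • pt (some x)) -
                (pt (some (x ^ k)) + pt (some x) - pt (some (x ^ k * x))) := by
              rw [pow_succ]
              push_cast
              module
            rw [e]
            exact Submodule.sub_mem _ ihk this
        have := key p
        simpa using this
    · haveI := ratFunc_charP F p
      have h1 : del2 (RatFunc F) (pt (some (line x ^ p)) - ((p : ℤ) ^ 2) • pt (some (line x))) = 0 := by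
        rw [map_sub, map_zsmul, del2_some, del2_some, one_smul, one_smul]
        have e1 : (1 - line x ^ p : RatFunc F) = (1 - line x) ^ p := by
          rw [sub_pow_char, one_pow]
        rw [e1, un_pow _ hp0, un_pow _ hp0, wedge_nsmul, sub_eq_zero, ← natCast_zsmul]
        congr 1
        push_cast; ring
      have h2 := jump_mem (n := 2) le_rfl (F := F) h1
      rw [jump, map_sub, map_sub, map_zsmul, map_zsmul, specZ_single, specZ_single, specZ_single,
        specZ_single, spec_line_pow, spec_line_pow, spec_line, spec_line, mul_one, mul_zero,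
        zero_pow hp0] at h2
      have e : pt (some (x ^ p)) - ((p : ℤ) ^ 2) • pt (some x) =
          (pt (some (0 : F)) - ((p : ℤ) ^ 2) • pt (some (0 : F))) -
          (pt (some (0 : F)) - ((p : ℤ) ^ 2) • pt (some (0 : F)) -
            (pt (some (x ^ p)) - ((p : ℤ) ^ 2) • pt (some x))) := by abel
      rw [e]
      exact Submodule.sub_mem _ (Submodule.sub_mem _ (pt_zero_mem 2)
        (Submodule.smul_mem _ _ (pt_zero_mem 2))) h2
    · haveI := ratFunc_charP F p
      have h1 : delR (Rel (n + 2) (RatFunc F))
          (pt (some (line x ^ p)) - ((p : ℤ) ^ (n + 3)) • pt (some (line x))) = 0 := by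
        rw [map_sub, map_zsmul, delR_some, delR_some, one_smul, one_smul]
        have e2 : tens (Rel (n + 2) (RatFunc F)) (pt (some (line x ^ p))) (un (line x)) =
            ((p : ℤ) ^ (n + 2)) • tens (Rel (n + 2) (RatFunc F)) (pt (some (line x))) (un (line x)) := by
          rw [← tens_smul_left]
          exact tens_congr _ (ih (n + 2) (by omega) (by omega) (RatFunc F) (line x)) _
        rw [un_pow _ hp0, tens_nsmul, e2, ← natCast_zsmul, smul_smul, sub_eq_zero]
        congr 1
        ring
      have h2 := jump_mem (n := n + 3) (by omega) (F := F) h1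
      rw [jump, map_sub, map_sub, map_zsmul, map_zsmul, specZ_single, specZ_single, specZ_single,
        specZ_single, spec_line_pow, spec_line_pow, spec_line, spec_line, mul_one, mul_zero,
        zero_pow hp0] at h2
      have e : pt (some (x ^ p)) - ((p : ℤ) ^ (n + 3)) • pt (some x) =
          (pt (some (0 : F)) - ((p : ℤ) ^ (n + 3)) • pt (some (0 : F))) -
          (pt (some (0 : F)) - ((p : ℤ) ^ (n + 3)) • pt (some (0 : F)) -
            (pt (some (x ^ p)) - ((p : ℤ) ^ (n + 3)) • pt (some x))) := by abel
      rw [e]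
      exact Submodule.sub_mem _ (Submodule.sub_mem _ (pt_zero_mem _)
        (Submodule.smul_mem _ _ (pt_zero_mem _))) h2

theorem frob_pt_iter {n : ℕ} (hn : 1 ≤ n) (F : Type u) [Field F] [CharP F p] (x : F) (m : ℕ) :
    pt (some (x ^ p ^ m)) - ((p : ℤ) ^ (n * m)) • pt (some x) ∈ Rel n F := by
  induction m with
  | zero => simp
  | succ m ih =>
    have h := frob_pt p n hn F (x ^ p ^ m)
    rw [← pow_mul, ← pow_succ] at h
    have h2 := Submodule.smul_mem _ ((p : ℤ) ^ n) ih
    have e : pt (some (x ^ p ^ (m + 1))) - ((p : ℤ) ^ (n * (m + 1))) • pt (some x) =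
        (pt (some (x ^ p ^ (m + 1))) - ((p : ℤ) ^ n) • pt (some (x ^ p ^ m))) +
        ((p : ℤ) ^ n) • (pt (some (x ^ p ^ m)) - ((p : ℤ) ^ (n * m)) • pt (some x)) := by
      rw [smul_sub, smul_smul, ← pow_add, show n + n * m = n * (m + 1) by ring]
      abel
    rw [e]
    exact Submodule.add_mem _ h h2

/-- The Frobenius endomorphism acts on `B_n(F)` as multiplication by `p ^ n`. -/
theorem frob {n : ℕ} (hn : 1 ≤ n) (F : Type u) [Field F] [CharP F p] (α : Z1 F) :
    mapZ (frobenius F p) α - ((p : ℤ) ^ n) • α ∈ Rel n F := by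
  induction α using Finsupp.induction_linear with
  | zero => rw [map_zero, smul_zero, sub_zero]; exact Submodule.zero_mem _
  | add a b ha hb =>
    rw [map_add, smul_add]
    have := Submodule.add_mem _ ha hb
    rwa [show mapZ (frobenius F p) a + mapZ (frobenius F p) b - ((p : ℤ) ^ n • a + (p : ℤ) ^ n • b) =
      mapZ (frobenius F p) a - (p : ℤ) ^ n • a + (mapZ (frobenius F p) b - (p : ℤ) ^ n • b) by abel]
  | single x k =>
    rw [mapZ_single]
    rcases x with _ | a
    · change Finsupp.single none k - _ ∈ _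
      have h : Finsupp.single (none : P1 F) k = k • pt none := by simp
      rw [h]
      exact Submodule.sub_mem _ (Submodule.smul_mem _ _ (pt_none_mem n))
        (Submodule.smul_mem _ _ (Submodule.smul_mem _ _ (pt_none_mem n)))
    · change Finsupp.single (some (frobenius F p a)) k - _ ∈ _
      have h : ∀ y : F, Finsupp.single (some y : P1 F) k = k • pt (some y) := by intro y; simp
      rw [h, h, frobenius_def, smul_comm _ k, ← smul_sub]
      exact Submodule.smul_mem _ _ (frob_pt p n hn F a)

/-- If `x ^ (p ^ m) = x` with `m > 0`, the class of `x` in `B_n(F)` is torsion. -/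
theorem torsion_of_finite {n : ℕ} (hn : 1 ≤ n) (F : Type u) [Field F] [CharP F p] (x : F) {m : ℕ}
    (hm : 0 < m) (hx : x ^ p ^ m = x) : Torsion n F (pt (some x)) := by
  have h := frob_pt_iter p hn F x m
  rw [hx] at h
  have h1 : 1 < p ^ (n * m) := Nat.one_lt_pow (by positivity) hp.out.one_lt
  refine ⟨p ^ (n * m) - 1, by omega, ?_⟩
  have e : (p ^ (n * m) - 1) • pt (some x) = -(pt (some x) - ((p : ℤ) ^ (n * m)) • pt (some x)) := by
    rw [← natCast_zsmul, Nat.cast_sub h1.le]
    push_cast
    module
  rw [e]
  exact Submodule.neg_mem _ h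

end

theorem Torsion.add {n : ℕ} {a b : Z1 F} (ha : Torsion n F a) (hb : Torsion n F b) :
    Torsion n F (a + b) := by
  obtain ⟨m, hm, h⟩ := ha
  obtain ⟨k, hk, h'⟩ := hb
  refine ⟨k * m, Nat.mul_pos hk hm, ?_⟩
  rw [smul_add]
  refine Submodule.add_mem _ ?_ ?_
  · rw [mul_smul]; exact Submodule.smul_of_tower_mem _ _ h
  · rw [mul_comm, mul_smul]; exact Submodule.smul_of_tower_mem _ _ h'

theorem Torsion.zsmul {n : ℕ} {a : Z1 F} (ha : Torsion n F a) (k : ℤ) : Torsion n F (k • a) := by
  obtain ⟨m, hm, h⟩ := ha
  refine ⟨m, hm, ?_⟩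
  rw [smul_comm]
  exact Submodule.smul_mem _ _ h

theorem Torsion.of_nsmul {n : ℕ} {a : Z1 F} {m : ℕ} (hm : 0 < m) (h : Torsion n F (m • a)) :
    Torsion n F a := by
  obtain ⟨k, hk, h⟩ := h
  exact ⟨k * m, Nat.mul_pos hk hm, by rwa [mul_smul]⟩

theorem Torsion.of_mem {n : ℕ} {a : Z1 F} (h : a ∈ Rel n F) : Torsion n F a :=
  ⟨1, one_pos, by rwa [one_smul]⟩

theorem Torsion.of_pts {n : ℕ} (h : ∀ x : F, Torsion n F (pt (some x))) (α : Z1 F) :
    Torsion n F α := by
  induction α using Finsupp.induction_linear with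
  | zero => exact Torsion.of_mem (Submodule.zero_mem _)
  | add a b ha hb => exact ha.add hb
  | single x k =>
    have e : Finsupp.single x k = k • pt x := by simp
    rw [e]
    rcases x with _ | a
    · exact (Torsion.of_mem (pt_none_mem n)).zsmul k
    · exact (h a).zsmul k

theorem specZ_mapZ (c : F) (ψ : F →+* RatFunc F) (g : P1 F → P1 F)
    (h : ∀ x : P1 F, spec c (mapP ψ x) = g x) (α : Z1 F) :
    specZ c (mapZ ψ α) = Finsupp.lmapDomain ℤ ℤ g α := by
  have : (specZ c) ∘ₗ (mapZ ψ) = Finsupp.lmapDomain ℤ ℤ g := by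
    apply Finsupp.lhom_ext
    intro x n
    rw [LinearMap.comp_apply, mapZ_single, specZ_single, h]
    simp [Finsupp.lmapDomain_apply]
  exact congrArg (fun f => f α) this

/-- The homotopy argument. -/
theorem homotopy {n : ℕ} (hn : 2 ≤ n) (ψ : F →+* RatFunc F) (g : P1 F → P1 F)
    (h0 : ∀ f, spec 0 (some (ψ f)) = some f) (h1 : ∀ f, spec 1 (mapP ψ f) = g f)
    {α : Z1 F} (hα : DelZero n F α) : α - Finsupp.lmapDomain ℤ ℤ g α ∈ Rel n F := by
  have h := jump_mem hn (hα.map ψ)
  rw [jump, specZ_mapZ 0 ψ id ?_ α, specZ_mapZ 1 ψ g h1 α, Finsupp.lmapDomain_id] at h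
  · exact h
  · rintro (_ | x)
    · rfl
    · exact h0 x

end Pool.Agent.R904.PL
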