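import Pool.Agent.R904.PL.Defs

namespace Pool.Agent.R904.PL

open scoped TensorProduct
open Polynomial nonZeroDivisors

universe u

variable {F E : Type u} [Field F] [Field E]

theorem spec_some (c : F) (f : RatFunc F) : spec c (some f) =
    open Classical in if f.denom.eval c = 0 then none else some (f.num.eval c / f.denom.eval c) :=
  rfl

theorem spec_none (c : F) : spec c (none : P1 (RatFunc F)) = none := rfl

/-- Value of a fraction. -/
theorem spec_div (c : F) (p q : F[X]) (hq : q ≠ 0) (h : q.eval c ≠ 0 ∨ p.eval c ≠ 0) :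
    spec c (some (algebraMap F[X] (RatFunc F) p / algebraMap F[X] (RatFunc F) q)) =
      open Classical in if q.eval c = 0 then none else some (p.eval c / q.eval c) := by
  classical
  set f : RatFunc F := algebraMap F[X] (RatFunc F) p / algebraMap F[X] (RatFunc F) q with hf
  have hq' : algebraMap F[X] (RatFunc F) q ≠ 0 := by
    rw [Ne, map_eq_zero_iff _ (RatFunc.algebraMap_injective F)]
    exact hq
  have hd : f.denom ≠ 0 := f.denom_ne_zero
  have hd' : algebraMap F[X] (RatFunc F) f.denom ≠ 0 := by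
    rw [Ne, map_eq_zero_iff _ (RatFunc.algebraMap_injective F)]
    exact hd
  have h1 : f.num * q = p * f.denom := by
    apply RatFunc.algebraMap_injective F
    rw [map_mul, map_mul]
    have h2 : algebraMap F[X] (RatFunc F) f.num / algebraMap F[X] (RatFunc F) f.denom =
        algebraMap F[X] (RatFunc F) p / algebraMap F[X] (RatFunc F) q := by
      rw [RatFunc.num_div_denom]
    rw [div_eq_div_iff hd' hq'] at h2
    exact h2
  have h3 : f.num.eval c * q.eval c = p.eval c * f.denom.eval c := by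
    rw [← Polynomial.eval_mul, ← Polynomial.eval_mul, h1]
  rw [spec_some]
  by_cases hqc : q.eval c = 0
  · rw [if_pos hqc]
    have hp : p.eval c ≠ 0 := by tauto
    have : f.denom.eval c = 0 := by
      rw [hqc, mul_zero] at h3
      exact (mul_eq_zero.1 h3.symm).resolve_left hp
    rw [if_pos this]
  · rw [if_neg hqc]
    have h4 : f.denom.eval c ≠ 0 := by
      intro h5
      obtain ⟨a, b, hab⟩ := f.isCoprime_num_denom
      have h6 : f.num.eval c ≠ 0 := by
        intro h7
        have := congrArg (Polynomial.eval c) hab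
        simp [h5, h7] at this
      rw [h5, mul_zero] at h3
      exact (mul_ne_zero h6 hqc) h3
    rw [if_neg h4]
    congr 1
    rw [div_eq_div_iff h4 hqc]
    exact h3

/-- The map on units. -/
noncomputable def mapU (j : F →+* E) : UG F →ₗ[ℤ] UG E :=
  AddMonoidHom.toIntLinearMap (M := UG F) (M₂ := UG E) (MonoidHom.toAdditive (Units.map (j : F →* E)))

theorem mapZ_single (j : F →+* E) (x : P1 F) (n : ℤ) :
    mapZ j (Finsupp.single x n) = Finsupp.single (mapP j x) n := by
  simp [mapZ, Finsupp.lmapDomain_apply]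

theorem specZ_single (c : F) (x : P1 (RatFunc F)) (n : ℤ) :
    specZ c (Finsupp.single x n) = Finsupp.single (spec c x) n := by
  simp [specZ, Finsupp.lmapDomain_apply]

theorem un_zero : un (0 : F) = 0 := by simp [un]

theorem un_of {x : F} (hx : x ≠ 0) : un x = ofU (Units.mk0 x hx) := by
  rw [un, dif_neg hx]

theorem un_one : un (1 : F) = 0 := by
  rw [un_of one_ne_zero]
  have : Units.mk0 (1 : F) one_ne_zero = 1 := by ext; rfl
  rw [this]; rfl

theorem un_mul {x y : F} (hx : x ≠ 0) (hy : y ≠ 0) : un (x * y) = un x + un y := by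
  rw [un_of hx, un_of hy, un_of (mul_ne_zero hx hy)]
  change ofU _ = (Additive.ofMul (Units.mk0 x hx) + Additive.ofMul (Units.mk0 y hy) : Additive Fˣ)
  rw [← ofMul_mul]
  congr 1
  ext; rfl

theorem un_pow (x : F) {n : ℕ} (hn : n ≠ 0) : un (x ^ n) = n • un x := by
  by_cases hx : x = 0
  · subst hx; rw [zero_pow hn, un_zero, smul_zero]
  · have : ∀ m : ℕ, un (x ^ m) = m • un x := by
      intro m
      induction m with
      | zero => rw [pow_zero, un_one, zero_smul]
      | succ m ih => rw [pow_succ, un_mul (pow_ne_zero _ hx) hx, ih, succ_nsmul]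
    exact this n

theorem mapU_un (j : F →+* E) (x : F) : mapU j (un x) = un (j x) := by
  by_cases hx : x = 0
  · subst hx; rw [un_zero, map_zero, map_zero, un_zero]
  · have hx' : j x ≠ 0 := by rwa [Ne, map_eq_zero]
    rw [un_of hx, un_of hx']
    change ofU ((Units.map (j : F →* E)) (Units.mk0 x hx)) = _
    congr 1
    ext; rfl

/-- The map on the exterior algebras. -/
noncomputable def mapL (j : F →+* E) : Lam F →ₗ[ℤ] Lam E :=
  AddMonoidHom.toIntLinearMap (M := Lam F) (M₂ := Lam E)
    ((ExteriorAlgebra.map (mapU j)).toLinearMap.toAddMonoidHom)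

theorem mapL_wedge (j : F →+* E) (a b : UG F) :
    mapL j (wedge a b) = wedge (mapU j a) (mapU j b) := by
  change (ExteriorAlgebra.map (mapU j)) (ExteriorAlgebra.ι ℤ a * ExteriorAlgebra.ι ℤ b) = _
  rw [map_mul, ExteriorAlgebra.map_apply_ι, ExteriorAlgebra.map_apply_ι]
  rfl

theorem wedge_zero_right (a : UG F) : wedge a 0 = 0 := by
  change (ExteriorAlgebra.ι ℤ a * ExteriorAlgebra.ι ℤ (0 : UG F) : ExteriorAlgebra ℤ (UG F)) = 0
  rw [map_zero, mul_zero]

theorem wedge_nsmul (a b : UG F) (k l : ℕ) : wedge (k • a) (l • b) = (k * l) • wedge a b := by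
  change (ExteriorAlgebra.ι ℤ (k • a) * ExteriorAlgebra.ι ℤ (l • b) : ExteriorAlgebra ℤ (UG F)) =
    (k * l) • (ExteriorAlgebra.ι ℤ a * ExteriorAlgebra.ι ℤ b : ExteriorAlgebra ℤ (UG F))
  rw [map_nsmul, map_nsmul, smul_mul_assoc, mul_smul_comm, smul_smul]

theorem tens_nsmul (R : Submodule ℤ (Z1 F)) (a : Z1 F) (u : UG F) (k : ℕ) :
    tens R a (k • u) = k • tens R a u := by
  change (R.mkQ a ⊗ₜ[ℤ] (k • u) : (Z1 F ⧸ R) ⊗[ℤ] UG F) =
    k • (R.mkQ a ⊗ₜ[ℤ] u : (Z1 F ⧸ R) ⊗[ℤ] UG F)
  exact map_nsmul (TensorProduct.mk ℤ (Z1 F ⧸ R) (UG F) (R.mkQ a)) k u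

theorem tens_zsmul (R : Submodule ℤ (Z1 F)) (a : Z1 F) (u : UG F) (k : ℤ) :
    tens R a (k • u) = k • tens R a u :=
  map_zsmul (TensorProduct.mk ℤ (Z1 F ⧸ R) (UG F) (R.mkQ a)) k u

theorem tens_sum {X : Type*} (R : Submodule ℤ (Z1 F)) (a : Z1 F) (S : Finset X) (u : X → UG F) :
    tens R a (∑ x ∈ S, u x) = ∑ x ∈ S, tens R a (u x) :=
  map_sum (TensorProduct.mk ℤ (Z1 F ⧸ R) (UG F) (R.mkQ a)) u S

theorem tens_congr (R : Submodule ℤ (Z1 F)) {a b : Z1 F} (h : a - b ∈ R) (u : UG F) :
    tens R a u = tens R b u := by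
  have : R.mkQ a = R.mkQ b := by
    rw [← sub_eq_zero, ← map_sub, Submodule.mkQ_apply, Submodule.Quotient.mk_eq_zero]
    exact h
  change (R.mkQ a ⊗ₜ[ℤ] u : (Z1 F ⧸ R) ⊗[ℤ] UG F) = (R.mkQ b ⊗ₜ[ℤ] u : (Z1 F ⧸ R) ⊗[ℤ] UG F)
  rw [this]

theorem tens_smul_left (R : Submodule ℤ (Z1 F)) (a : Z1 F) (u : UG F) (k : ℤ) :
    tens R (k • a) u = k • tens R a u := by
  have : R.mkQ (k • a) = k • R.mkQ a := map_zsmul _ _ _
  change (R.mkQ (k • a) ⊗ₜ[ℤ] u : (Z1 F ⧸ R) ⊗[ℤ] UG F) = _
  rw [this]
  exact map_zsmul ((TensorProduct.mk ℤ (Z1 F ⧸ R) (UG F)).flip u) _ _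

theorem tens_sum_left {X : Type*} (R : Submodule ℤ (Z1 F)) (S : Finset X) (a : X → Z1 F) (u : UG F) :
    tens R (∑ x ∈ S, a x) u = ∑ x ∈ S, tens R (a x) u := by
  change (R.mkQ (∑ x ∈ S, a x) ⊗ₜ[ℤ] u : (Z1 F ⧸ R) ⊗[ℤ] UG F) = _
  rw [map_sum]
  exact map_sum ((TensorProduct.mk ℤ (Z1 F ⧸ R) (UG F)).flip u) _ _

theorem del2_none (n : ℤ) : del2 F (Finsupp.single none n) = 0 := by
  simp [del2, v2]

theorem del2_some (a : F) (n : ℤ) : del2 F (Finsupp.single (some a) n) =
    n • wedge (un (1 - a)) (un a) := by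
  simp [del2, v2]

theorem delR_none (R : Submodule ℤ (Z1 F)) (n : ℤ) : delR R (Finsupp.single none n) = 0 := by
  simp [delR, vR]

theorem delR_some (R : Submodule ℤ (Z1 F)) (a : F) (n : ℤ) :
    delR R (Finsupp.single (some a) n) = n • tens R (pt (some a)) (un a) := by
  simp [delR, vR]

theorem del2_map (j : F →+* E) (α : Z1 F) : del2 E (mapZ j α) = mapL j (del2 F α) := by
  induction α using Finsupp.induction_linear with
  | zero => rw [map_zero, map_zero, map_zero, map_zero]
  | add a b ha hb => rw [map_add, map_add, map_add, map_add, ha, hb]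
  | single x n =>
    rw [mapZ_single]
    rcases x with _ | a
    · change del2 E (Finsupp.single none n) = _
      rw [del2_none, del2_none, map_zero]
    · change del2 E (Finsupp.single (some (j a)) n) = _
      rw [del2_some, del2_some, map_zsmul, mapL_wedge, mapU_un, mapU_un, map_sub, map_one]

/-- The map on the tensor products. -/
noncomputable def mapT (j : F →+* E) (R : Submodule ℤ (Z1 F)) (R' : Submodule ℤ (Z1 E))
    (h : R ≤ R'.comap (mapZ j)) : BT R →ₗ[ℤ] BT R' :=
  AddMonoidHom.toIntLinearMap (M := BT R) (M₂ := BT R')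
    (TensorProduct.map (R.mapQ R' (mapZ j) h) (mapU j)).toAddMonoidHom

theorem mapT_tens (j : F →+* E) (R : Submodule ℤ (Z1 F)) (R' : Submodule ℤ (Z1 E))
    (h : R ≤ R'.comap (mapZ j)) (a : Z1 F) (u : UG F) :
    mapT j R R' h (tens R a u) = tens R' (mapZ j a) (mapU j u) := by
  change (TensorProduct.map (R.mapQ R' (mapZ j) h) (mapU j)) (R.mkQ a ⊗ₜ[ℤ] u) = _
  rw [TensorProduct.map_tmul, Submodule.mkQ_apply R, Submodule.mapQ_apply]
  rfl

theorem delR_map (j : F →+* E) (R : Submodule ℤ (Z1 F)) (R' : Submodule ℤ (Z1 E))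
    (h : R ≤ R'.comap (mapZ j)) (α : Z1 F) :
    delR R' (mapZ j α) = mapT j R R' h (delR R α) := by
  induction α using Finsupp.induction_linear with
  | zero => rw [map_zero, map_zero, map_zero, map_zero]
  | add a b ha hb => rw [map_add, map_add, map_add, map_add, ha, hb]
  | single x n =>
    rw [mapZ_single]
    rcases x with _ | a
    · change delR R' (Finsupp.single none n) = _
      rw [delR_none, delR_none, map_zero]
    · change delR R' (Finsupp.single (some (j a)) n) = _
      rw [delR_some, delR_some, map_zsmul, mapT_tens, mapZ_single, mapU_un]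
      rfl

theorem mapR_aux (j : F →+* E) : (F[X])⁰ ≤ Submonoid.comap
    ((algebraMap E[X] (RatFunc E)).comp (Polynomial.mapRingHom j)) (RatFunc E)⁰ := by
  intro p hp
  have hp' : p ≠ 0 := nonZeroDivisors.ne_zero hp
  rw [Submonoid.mem_comap, mem_nonZeroDivisors_iff_ne_zero]
  rw [RingHom.comp_apply, Ne, map_eq_zero_iff _ (RatFunc.algebraMap_injective E)]
  rw [Polynomial.coe_mapRingHom, Polynomial.map_eq_zero]
  exact hp'

/-- The map `F(t) → E(t)`. -/
noncomputable def mapR (j : F →+* E) : RatFunc F →+* RatFunc E :=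
  RatFunc.liftRingHom ((algebraMap E[X] (RatFunc E)).comp (Polynomial.mapRingHom j)) (mapR_aux j)

theorem mapR_apply (j : F →+* E) (f : RatFunc F) : mapR j f =
    algebraMap E[X] (RatFunc E) (f.num.map j) / algebraMap E[X] (RatFunc E) (f.denom.map j) := by
  rw [mapR, RatFunc.liftRingHom_apply]
  rfl

theorem spec_map (j : F →+* E) (c : F) (f : P1 (RatFunc F)) :
    spec (j c) (mapP (mapR j) f) = mapP j (spec c f) := by
  classical
  rcases f with _ | f
  · rfl
  · change spec (j c) (some (mapR j f)) = _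
    have hd : (f.denom.map j) ≠ 0 := by
      rw [Ne, Polynomial.map_eq_zero]; exact f.denom_ne_zero
    have he : ∀ p : F[X], (p.map j).eval (j c) = j (p.eval c) := by
      intro p
      rw [Polynomial.eval_map_apply]
    rw [mapR_apply, spec_div _ _ _ hd, spec_some, he, he]
    · by_cases h : f.denom.eval c = 0
      · rw [if_pos h, if_pos (by rw [h, map_zero])]; rfl
      · rw [if_neg h, if_neg (by rwa [map_eq_zero])]
        change _ = some (j _)
        rw [map_div₀]
    · rw [he, he, Ne, map_eq_zero, Ne, map_eq_zero]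
      by_contra hcon
      push Not at hcon
      obtain ⟨a, b, hab⟩ := f.isCoprime_num_denom
      have := congrArg (Polynomial.eval c) hab
      simp [hcon.1, hcon.2] at this

theorem specZ_map (j : F →+* E) (c : F) (α : Z1 (RatFunc F)) :
    specZ (j c) (mapZ (mapR j) α) = mapZ j (specZ c α) := by
  have : (specZ (j c)) ∘ₗ (mapZ (mapR j)) = (mapZ j) ∘ₗ (specZ c) := by
    apply Finsupp.lhom_ext
    intro x n
    rw [LinearMap.comp_apply, LinearMap.comp_apply, mapZ_single, specZ_single, specZ_single,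
      mapZ_single, spec_map]
  exact congrArg (fun f => f α) this

theorem jump_map (j : F →+* E) (α : Z1 (RatFunc F)) :
    jump (mapZ (mapR j) α) = mapZ j (jump α) := by
  unfold jump
  rw [map_sub, ← specZ_map, ← specZ_map, map_zero, map_one]

theorem Rel_one (F : Type u) [Field F] : Rel 1 F = Submodule.span ℤ ({pt (some 0), pt none} ∪
      {a | ∃ x y : F, x ≠ 0 ∧ y ≠ 0 ∧ a = pt (some x) + pt (some y) - pt (some (x * y))}) := by
  simp only [Rel, Rel1]

theorem Rel_two (F : Type u) [Field F] : Rel 2 F = Submodule.span ℤ ({pt (some 0), pt none} ∪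
      {a | ∃ α : Z1 (RatFunc F), del2 (RatFunc F) α = 0 ∧ a = jump α}) := by
  simp only [Rel, RelOf, Ker2]

theorem Rel_add (n : ℕ) (F : Type u) [Field F] :
    Rel (n + 3) F = Submodule.span ℤ ({pt (some 0), pt none} ∪
      {a | ∃ α : Z1 (RatFunc F), delR (Rel (n + 2) (RatFunc F)) α = 0 ∧ a = jump α}) := by
  simp only [Rel, RelOf, KerR]

theorem pt_zero_mem (n : ℕ) : pt (some (0 : F)) ∈ Rel n F := by
  rcases n with _ | _ | _ | n
  · simp [Rel]
  · rw [Rel_one]; exact Submodule.subset_span (Or.inl (Or.inl rfl))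
  · rw [Rel_two]; exact Submodule.subset_span (Or.inl (Or.inl rfl))
  · rw [Rel_add]; exact Submodule.subset_span (Or.inl (Or.inl rfl))

theorem pt_none_mem (n : ℕ) : pt (none : P1 F) ∈ Rel n F := by
  rcases n with _ | _ | _ | n
  · simp [Rel]
  · rw [Rel_one]; exact Submodule.subset_span (Or.inl (Or.inr rfl))
  · rw [Rel_two]; exact Submodule.subset_span (Or.inl (Or.inr rfl))
  · rw [Rel_add]; exact Submodule.subset_span (Or.inl (Or.inr rfl))

/-- Functoriality of `R_n`. -/
theorem Rel_map (n : ℕ) : ∀ {F E : Type u} [Field F] [Field E] (j : F →+* E),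
    Rel n F ≤ (Rel n E).comap (mapZ j) := by
  induction n using Nat.strong_induction_on with
  | _ n ih =>
    intro F E _ _ j
    have h0 : ∀ m, mapZ j (pt (some (0 : F))) ∈ Rel m E := by
      intro m
      rw [mapZ_single]
      change Finsupp.single (some (j 0)) 1 ∈ _
      rw [map_zero]; exact pt_zero_mem m
    have hi : ∀ m, mapZ j (pt (none : P1 F)) ∈ Rel m E := by
      intro m
      rw [mapZ_single]
      exact pt_none_mem m
    rcases n with _ | _ | _ | n
    · intro x _; simp [Rel]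
    · rw [Rel_one F, Submodule.span_le]
      rintro a ((rfl | rfl) | ⟨x, y, hx, hy, rfl⟩)
      · exact h0 1
      · exact hi 1
      · change mapZ j _ ∈ Rel 1 E
        rw [map_sub, map_add, mapZ_single, mapZ_single, mapZ_single, Rel_one]
        refine Submodule.subset_span (Or.inr ⟨j x, j y, ?_, ?_, ?_⟩)
        · rwa [Ne, map_eq_zero]
        · rwa [Ne, map_eq_zero]
        · change pt (some (j x)) + pt (some (j y)) - pt (some (j (x * y))) = _
          rw [map_mul]
    · rw [Rel_two F, Submodule.span_le]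
      rintro a ((rfl | rfl) | ⟨α, hα, rfl⟩)
      · exact h0 2
      · exact hi 2
      · change mapZ j _ ∈ Rel 2 E
        rw [Rel_two]
        refine Submodule.subset_span (Or.inr ⟨mapZ (mapR j) α, ?_, ?_⟩)
        · rw [del2_map, hα, map_zero]
        · rw [jump_map]
    · rw [Rel_add n F, Submodule.span_le]
      rintro a ((rfl | rfl) | ⟨α, hα, rfl⟩)
      · exact h0 (n + 3)
      · exact hi (n + 3)
      · change mapZ j _ ∈ Rel (n + 3) E
        rw [Rel_add]
        refine Submodule.subset_span (Or.inr ⟨mapZ (mapR j) α, ?_, ?_⟩)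
        · rw [delR_map (mapR j) _ _ (ih (n + 2) (by omega) (mapR j)), hα, map_zero]
        · rw [jump_map]

theorem DelZero.map {n : ℕ} (j : F →+* E) {α : Z1 F} (h : DelZero n F α) :
    DelZero n E (mapZ j α) := by
  rcases n with _ | _ | _ | n
  · trivial
  · trivial
  · simp only [DelZero, Ker2] at h ⊢
    rw [del2_map, h, map_zero]
  · simp only [DelZero, KerR] at h ⊢
    rw [delR_map j _ _ (Rel_map (n + 2) j), h, map_zero]

theorem jump_mem {n : ℕ} (hn : 2 ≤ n) {α : Z1 (RatFunc F)} (h : DelZero n (RatFunc F) α) :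
    jump α ∈ Rel n F := by
  rcases n with _ | _ | _ | n
  · omega
  · omega
  · simp only [DelZero, Ker2] at h
    rw [Rel_two]; exact Submodule.subset_span (Or.inr ⟨α, h, rfl⟩)
  · simp only [DelZero, KerR] at h
    rw [Rel_add]; exact Submodule.subset_span (Or.inr ⟨α, h, rfl⟩)

theorem DelTorsion.exists {n : ℕ} {α : Z1 F} (h : DelTorsion n F α) :
    ∃ m : ℕ, 0 < m ∧ DelZero n F (m • α) := h

end Pool.Agent.R904.PL
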