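import Pool.Agent.R904.PL.Crit

/-!
# Frobenius and the complexes `Γ(F, n)`
-/

namespace Pool.Agent.R904.PL

universe u

theorem algebraic_pow (p : ℕ) [hp : Fact p.Prime] (k : Type u) [Field k] [Algebra (ZMod p) k]
    [Algebra.IsAlgebraic (ZMod p) k] (a : k) : ∃ m : ℕ, 0 < m ∧ a ^ p ^ m = a := by
  let K := IntermediateField.adjoin (ZMod p) {a}
  haveI : FiniteDimensional (ZMod p) K :=
    IntermediateField.adjoin.finiteDimensional (Algebra.IsIntegral.isIntegral a)
  haveI : Finite K := Module.finite_of_finite (ZMod p)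
  haveI := Fintype.ofFinite K
  have h1 : Fintype.card K = p ^ Module.finrank (ZMod p) K := by
    have := Module.card_eq_pow_finrank (K := ZMod p) (V := K)
    rwa [ZMod.card] at this
  refine ⟨Module.finrank (ZMod p) K, Module.finrank_pos, ?_⟩
  have h2 := FiniteField.pow_card (⟨a, IntermediateField.mem_adjoin_simple_self (ZMod p) a⟩ : K)
  rw [h1] at h2
  exact congrArg Subtype.val h2

theorem algebraic_char (p : ℕ) [hp : Fact p.Prime] (k : Type u) [Field k] [Algebra (ZMod p) k] :
    CharP k p := charP_of_injective_algebraMap (algebraMap (ZMod p) k).injective p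

theorem frob_iter (p : ℕ) [hp : Fact p.Prime] {n : ℕ} (hn : 1 ≤ n) (F : Type u) [Field F]
    [CharP F p] (σ : F →+* F) (m : ℕ) (hσ : ∀ x, σ x = x ^ p ^ m) (α : Z1 F) :
    mapZ σ α - ((p : ℤ) ^ (n * m)) • α ∈ Rel n F := by
  induction α using Finsupp.induction_linear with
  | zero => rw [map_zero, smul_zero, sub_zero]; exact Submodule.zero_mem _
  | add a b ha hb =>
    rw [map_add, smul_add]
    have := Submodule.add_mem _ ha hb
    rwa [show mapZ σ a + mapZ σ b - ((p : ℤ) ^ (n * m) • a + (p : ℤ) ^ (n * m) • b) =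
      mapZ σ a - (p : ℤ) ^ (n * m) • a + (mapZ σ b - (p : ℤ) ^ (n * m) • b) by abel]
  | single x k =>
    rw [mapZ_single]
    rcases x with _ | a
    · change Finsupp.single none k - _ ∈ _
      have h : Finsupp.single (none : P1 F) k = k • pt none := by simp
      rw [h]
      exact Submodule.sub_mem _ (Submodule.smul_mem _ _ (pt_none_mem n))
        (Submodule.smul_mem _ _ (Submodule.smul_mem _ _ (pt_none_mem n)))
    · change Finsupp.single (some (σ a)) k - _ ∈ _
      have h : ∀ y : F, Finsupp.single (some y : P1 F) k = k • pt (some y) := by intro y; simp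
      rw [h, h, hσ, smul_comm _ k, ← smul_sub]
      exact Submodule.smul_mem _ _ (frob_pt_iter p hn F a m)

theorem mapZ_comp {F E G : Type u} [Field F] [Field E] [Field G] (j : F →+* E) (r : E →+* G)
    (α : Z1 F) : mapZ r (mapZ j α) = mapZ (r.comp j) α := by
  induction α using Finsupp.induction_linear with
  | zero => simp
  | add a b ha hb => rw [map_add, map_add, map_add, ha, hb]
  | single x k =>
    rw [mapZ_single, mapZ_single, mapZ_single]
    congr 1
    rcases x with _ | x <;> rfl

theorem frobeniusPart (p : ℕ) [hp : Fact p.Prime] : FrobeniusPart.{u} p := by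
  intro n F _ _ hn α
  have := frob p hn F α
  rwa [← Nat.cast_pow, natCast_zsmul] at this

theorem inseparablePart (p : ℕ) [hp : Fact p.Prime] : InseparablePart.{u} p := by
  intro n m F E _ _ _ j hn h
  haveI : CharP E p := charP_of_injective_ringHom j.injective p
  choose r hr using h
  have hinj : Function.Injective j := j.injective
  let ρ : E →+* F :=
    { toFun := r
      map_one' := hinj (by rw [hr, map_one, one_pow])
      map_mul' := fun x y => hinj (by rw [map_mul, hr, hr, hr, mul_pow])
      map_zero' := hinj (by rw [hr, map_zero, zero_pow (pow_ne_zero _ hp.out.ne_zero)])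
      map_add' := fun x y => hinj (by rw [map_add, hr, hr, hr, add_pow_char_pow]) }
  have h1 : ∀ x, (ρ.comp j) x = x ^ p ^ m := by
    intro x
    apply hinj
    change j (r (j x)) = _
    rw [hr, map_pow]
  have h2 : ∀ y, (j.comp ρ) y = y ^ p ^ m := hr
  constructor
  · intro α hα
    have h3 := Rel_map n ρ hα
    rw [Submodule.mem_comap, mapZ_comp] at h3
    have h4 := Submodule.sub_mem _ h3 (frob_iter p hn F (ρ.comp j) m h1 α)
    rwa [sub_sub_cancel, ← Nat.cast_pow, natCast_zsmul] at h4
  · intro β
    refine ⟨mapZ ρ β, ?_⟩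
    have h4 := Submodule.neg_mem _ (frob_iter p hn E (j.comp ρ) m h2 β)
    rwa [neg_sub, ← mapZ_comp, ← Nat.cast_pow, natCast_zsmul] at h4

theorem algebraicPart (p : ℕ) [hp : Fact p.Prime] : AlgebraicPart.{u} p := by
  intro n F _ _ _ hn α
  haveI := algebraic_char p F
  apply Torsion.of_pts
  intro x
  obtain ⟨m, hm, h⟩ := algebraic_pow p F x
  exact torsion_of_finite p hn F x hm h

theorem kernelPart (p : ℕ) [hp : Fact p.Prime] : KernelPart.{u} p := by
  intro n k F ι _ _ _ _ _ _ hn α hα
  haveI := algebraic_char p k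
  obtain ⟨m, hm, h⟩ := hα.exists
  exact Torsion.of_nsmul hm (kernel_torsion p k F ι (algebraic_pow p k) hn h)

theorem symbolPart (p : ℕ) [hp : Fact p.Prime] : SymbolPart.{u} p := by
  intro n k F ι _ _ _ _ _ _ hn α hα
  haveI := algebraic_char p k
  obtain ⟨m, rfl⟩ : ∃ m, n = m + 2 := ⟨n - 2, by omega⟩
  exact symbol_criterion p k F ι (algebraic_pow p k) m α hα

end Pool.Agent.R904.PL
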