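import Pool.Agent.R904.PL.Frob

namespace Pool.Agent.R904.PL

open scoped TensorProduct
open Polynomial nonZeroDivisors

universe u

theorem charF (p : ℕ) (k F ι : Type u) [Field k] [CharP k p] [Field F]
    [Algebra (MvPolynomial ι k) F] : CharP F p := by
  have h1 : Function.Injective
      ((algebraMap (MvPolynomial ι k) F).comp (MvPolynomial.C : k →+* MvPolynomial ι k)) :=
    (RingHom.injective _)
  exact charP_of_injective_ringHom h1 p

section

variable (p : ℕ) [hp : Fact p.Prime] {k F ι : Type u} [Field k] [CharP k p] [Field F]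
  [Algebra (MvPolynomial ι k) F] [IsFractionRing (MvPolynomial ι k) F]

/-- `x_i ↦ x_i + t (x_i ^ q - x_i)`. -/
noncomputable def psi0 (q : ℕ) : MvPolynomial ι k →+* F[X] :=
  MvPolynomial.eval₂Hom (Polynomial.C.comp ((algebraMap (MvPolynomial ι k) F).comp MvPolynomial.C))
    (fun i => Polynomial.C ((algebraMap (MvPolynomial ι k) F) (MvPolynomial.X i)) +
      Polynomial.X * Polynomial.C ((algebraMap (MvPolynomial ι k) F) (MvPolynomial.X i) ^ q - (algebraMap (MvPolynomial ι k) F) (MvPolynomial.X i)))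

/-- `x_i ↦ x_i ^ q`. -/
noncomputable def tau (q : ℕ) : MvPolynomial ι k →+* F :=
  MvPolynomial.eval₂Hom ((algebraMap (MvPolynomial ι k) F).comp MvPolynomial.C) (fun i => (algebraMap (MvPolynomial ι k) F) (MvPolynomial.X i) ^ q)

theorem psi0_zero (q : ℕ) (P : MvPolynomial ι k) : (psi0 (F := F) q P).eval 0 = (algebraMap (MvPolynomial ι k) F) P := by
  have : (Polynomial.evalRingHom (0 : F)).comp (psi0 (k := k) (ι := ι) q) = (algebraMap (MvPolynomial ι k) F) := by
    apply MvPolynomial.ringHom_ext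
    · intro a
      simp [psi0]
    · intro i
      simp [psi0]
  exact congrArg (fun f => f P) this

theorem psi0_one (q : ℕ) (P : MvPolynomial ι k) : (psi0 (F := F) q P).eval 1 = tau q P := by
  have : (Polynomial.evalRingHom (1 : F)).comp (psi0 (k := k) (ι := ι) q) = tau q := by
    apply MvPolynomial.ringHom_ext
    · intro a
      simp [psi0, tau]
    · intro i
      simp [psi0, tau]
  exact congrArg (fun f => f P) this

theorem phi_inj : Function.Injective (algebraMap (MvPolynomial ι k) F) :=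
  IsFractionRing.injective _ _

theorem psi0_ne (q : ℕ) {P : MvPolynomial ι k} (hP : P ≠ 0) : psi0 (F := F) q P ≠ 0 := by
  intro h
  have := psi0_zero (F := F) q P
  rw [h, Polynomial.eval_zero] at this
  exact hP (phi_inj (k := k) (ι := ι) (F := F) (by rw [← this, map_zero]))

/-- The homomorphism `F → F(t)`. -/
noncomputable def psi (q : ℕ) : F →+* RatFunc F :=
  IsFractionRing.lift (A := MvPolynomial ι k)
    (g := (algebraMap F[X] (RatFunc F)).comp (psi0 q)) (by
      intro P Q h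
      rw [RingHom.comp_apply, RingHom.comp_apply] at h
      have h1 := RatFunc.algebraMap_injective F h
      have h2 := psi0_zero (F := F) q P
      rw [h1, psi0_zero] at h2
      exact (phi_inj (F := F) h2).symm)

theorem psi_div (q : ℕ) (P Q : MvPolynomial ι k) :
    psi (k := k) (ι := ι) q ((algebraMap (MvPolynomial ι k) F) P / (algebraMap (MvPolynomial ι k) F) Q) =
      algebraMap F[X] (RatFunc F) (psi0 q P) / algebraMap F[X] (RatFunc F) (psi0 q Q) := by
  rw [map_div₀]
  congr 1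
  · exact IsFractionRing.lift_algebraMap _ _
  · exact IsFractionRing.lift_algebraMap _ _

theorem exists_div (f : F) : ∃ P Q : MvPolynomial ι k, Q ≠ 0 ∧ f = (algebraMap (MvPolynomial ι k) F) P / (algebraMap (MvPolynomial ι k) F) Q := by
  obtain ⟨P, Q, hQ, h⟩ := IsFractionRing.div_surjective (A := MvPolynomial ι k) f
  exact ⟨P, Q, nonZeroDivisors.ne_zero hQ, h.symm⟩

theorem phi_ne {Q : MvPolynomial ι k} (hQ : Q ≠ 0) : (algebraMap (MvPolynomial ι k) F) Q ≠ 0 := by
  rwa [Ne, map_eq_zero_iff _ (phi_inj (F := F))]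

theorem psi_zero (q : ℕ) (f : F) : spec 0 (some (psi (k := k) (ι := ι) q f)) = some f := by
  classical
  obtain ⟨P, Q, hQ, rfl⟩ := exists_div (k := k) (ι := ι) f
  rw [psi_div, spec_div _ _ _ (psi0_ne q hQ) (Or.inl ?_), psi0_zero, psi0_zero,
    if_neg (phi_ne hQ)]
  rw [psi0_zero]
  exact phi_ne hQ

variable (k ι) in
/-- `f` is a fraction of polynomials for which `τ` is the `p ^ m`-th power. -/
def GoodAt (m : ℕ) (f : F) : Prop :=
  ∃ P Q : MvPolynomial ι k, Q ≠ 0 ∧ f = (algebraMap (MvPolynomial ι k) F) P / (algebraMap (MvPolynomial ι k) F) Q ∧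
    tau (p ^ m) P = (algebraMap (MvPolynomial ι k) F) P ^ p ^ m ∧ tau (p ^ m) Q = (algebraMap (MvPolynomial ι k) F) Q ^ p ^ m

theorem psi_one {m : ℕ} {f : F} (h : GoodAt p k ι m f) :
    spec 1 (some (psi (k := k) (ι := ι) (p ^ m) f)) = some (f ^ p ^ m) := by
  classical
  obtain ⟨P, Q, hQ, rfl, hP, hQ'⟩ := h
  have hne : tau (F := F) (p ^ m) Q ≠ 0 := by
    rw [hQ']; exact pow_ne_zero _ (phi_ne hQ)
  rw [psi_div, spec_div _ _ _ (psi0_ne _ hQ) (Or.inl ?_), psi0_one, psi0_one, if_neg hne, hP, hQ',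
    div_pow]
  rw [psi0_one]
  exact hne

theorem good_poly (hk : ∀ a : k, ∃ m : ℕ, 0 < m ∧ a ^ p ^ m = a) (P : MvPolynomial ι k) :
    ∃ m₀ : ℕ, 0 < m₀ ∧ ∀ m, m₀ ∣ m → tau (F := F) (p ^ m) P = (algebraMap (MvPolynomial ι k) F) P ^ p ^ m := by
  have := charF p k F ι
  induction P using MvPolynomial.induction_on with
  | C a =>
    obtain ⟨m₀, hm, h⟩ := hk a
    refine ⟨m₀, hm, ?_⟩
    rintro m ⟨c, rfl⟩
    have h1 : a ^ p ^ (m₀ * c) = a := by
      induction c with
      | zero => simp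
      | succ c ih => rw [mul_add, pow_add, pow_mul, ih, mul_one, h]
    rw [← map_pow, ← map_pow, h1]
    simp [tau]
  | add P Q hP hQ =>
    obtain ⟨a, ha, h⟩ := hP
    obtain ⟨b, hb, h'⟩ := hQ
    refine ⟨a * b, Nat.mul_pos ha hb, ?_⟩
    intro m hm
    rw [map_add, map_add, add_pow_char_pow, h m (dvd_of_mul_right_dvd hm),
      h' m (dvd_of_mul_left_dvd hm)]
  | mul_X P i hP =>
    obtain ⟨a, ha, h⟩ := hP
    refine ⟨a, ha, ?_⟩
    intro m hm
    rw [map_mul, map_mul, mul_pow, h m hm]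
    congr 1
    simp [tau]

theorem good_at (hk : ∀ a : k, ∃ m : ℕ, 0 < m ∧ a ^ p ^ m = a) (f : F) :
    ∃ m₀ : ℕ, 0 < m₀ ∧ ∀ m, m₀ ∣ m → GoodAt p k ι m f := by
  obtain ⟨P, Q, hQ, rfl⟩ := exists_div (k := k) (ι := ι) f
  obtain ⟨a, ha, h⟩ := good_poly (F := F) p hk P
  obtain ⟨b, hb, h'⟩ := good_poly (F := F) p hk Q
  refine ⟨a * b, Nat.mul_pos ha hb, ?_⟩
  intro m hm
  exact ⟨P, Q, hQ, rfl, h m (dvd_of_mul_right_dvd hm), h' m (dvd_of_mul_left_dvd hm)⟩

theorem good_finset (hk : ∀ a : k, ∃ m : ℕ, 0 < m ∧ a ^ p ^ m = a) (S : Finset (P1 F)) :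
    ∃ m₀ : ℕ, 0 < m₀ ∧ ∀ m, m₀ ∣ m → ∀ f : F, some f ∈ S → GoodAt p k ι m f := by
  classical
  induction S using Finset.induction_on with
  | empty => exact ⟨1, one_pos, by simp⟩
  | insert x S _ ih =>
    obtain ⟨a, ha, h⟩ := ih
    rcases x with _ | x
    · refine ⟨a, ha, ?_⟩
      intro m hm f hf
      rw [Finset.mem_insert] at hf
      rcases hf with hf | hf
      · exact absurd hf (by simp)
      · exact h m hm f hf
    · obtain ⟨b, hb, h'⟩ := good_at (F := F) (k := k) (ι := ι) p hk x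
      refine ⟨a * b, Nat.mul_pos ha hb, ?_⟩
      intro m hm f hf
      rw [Finset.mem_insert] at hf
      rcases hf with hf | hf
      · obtain rfl : f = x := by simpa using hf
        exact h' m (dvd_of_mul_left_dvd hm)
      · exact h m (dvd_of_mul_right_dvd hm) f hf

end

/-- The kernel of `δ_n` is torsion for purely transcendental extensions of algebraic extensions of
`𝔽_p`. -/
theorem kernel_torsion (p : ℕ) [hp : Fact p.Prime] (k F ι : Type u) [Field k] [CharP k p] [Field F]
    [Algebra (MvPolynomial ι k) F] [IsFractionRing (MvPolynomial ι k) F] (hk : ∀ a : k, ∃ m : ℕ, 0 < m ∧ a ^ p ^ m = a) {n : ℕ} (hn : 2 ≤ n)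
    {α : Z1 F} (hα : DelZero n F α) : Torsion n F α := by
  classical
  have := charF p k F ι
  obtain ⟨m, hm, hgood⟩ := good_finset (k := k) (ι := ι) p hk α.support
  have hgood := hgood m dvd_rfl
  have h := homotopy hn (psi (k := k) (ι := ι) (p ^ m))
    (fun x => spec 1 (mapP (psi (k := k) (ι := ι) (p ^ m)) x)) (psi_zero _) (fun _ => rfl) hα
  have h2 : Finsupp.lmapDomain ℤ ℤ (fun x => spec 1 (mapP (psi (k := k) (ι := ι) (p ^ m)) x)) α -
      ((p : ℤ) ^ (n * m)) • α ∈ Rel n F := by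
    have e : ∀ g : P1 F → P1 F, Finsupp.lmapDomain ℤ ℤ g α = ∑ x ∈ α.support, α x • pt (g x) := by
      intro g
      rw [Finsupp.lmapDomain_apply, Finsupp.mapDomain, Finsupp.sum]
      refine Finset.sum_congr rfl fun x _ => ?_
      simp
    have e' : α = ∑ x ∈ α.support, α x • pt x := by
      have := e id
      rwa [Finsupp.lmapDomain_id] at this
    rw [e, show ((p : ℤ) ^ (n * m)) • α = ∑ x ∈ α.support, ((p : ℤ) ^ (n * m)) • α x • pt x by
      conv_lhs => rw [e']
      rw [Finset.smul_sum], ← Finset.sum_sub_distrib]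
    refine Submodule.sum_mem _ fun x hx => ?_
    rw [smul_comm _ (α x), ← smul_sub]
    refine Submodule.smul_mem _ _ ?_
    rcases x with _ | x
    · exact Submodule.sub_mem _ (pt_none_mem n) (Submodule.smul_mem _ _ (pt_none_mem n))
    · change pt (spec 1 (some (psi (p ^ m) x))) - _ ∈ _
      rw [psi_one p (hgood x hx)]
      exact frob_pt_iter p (by omega) F x m
  have h1 : 1 < p ^ (n * m) := Nat.one_lt_pow (by positivity) hp.out.one_lt
  refine ⟨p ^ (n * m) - 1, by omega, ?_⟩
  have h3 := Submodule.neg_mem _ (Submodule.add_mem _ h h2)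
  have e : (p ^ (n * m) - 1) • α = -(α - Finsupp.lmapDomain ℤ ℤ
      (fun x => spec 1 (mapP (psi (k := k) (ι := ι) (p ^ m)) x)) α +
      (Finsupp.lmapDomain ℤ ℤ (fun x => spec 1 (mapP (psi (k := k) (ι := ι) (p ^ m)) x)) α -
      ((p : ℤ) ^ (n * m)) • α)) := by
    rw [← natCast_zsmul, Nat.cast_sub h1.le]
    push_cast
    module
  rw [e]
  exact h3

end Pool.Agent.R904.PL
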